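import Pool.Agent.L0h5.TT.Stm

set_option autoImplicit false

namespace Pool.Agent.LLead.TT

open Finset Pool.Agent.W262.RK Pool.Agent.L0h5.TF Pool.Agent.L0h5.AG Pool.Agent.L0h94.FT Filter
open Pool.Agent.W307.RT (S1 S2 Gd fv Cv Sh LOW)
open Pool.Agent.L0h5.TT

lemma cv_mono {H H' : ℕ} (h : H ≤ H') : Cv 2 H ⊆ Cv 2 H' := by
  intro c hc
  unfold Cv at hc ⊢
  simp only [mem_filter, mem_product, mem_Icc] at hc ⊢
  have h' : (H : ℤ) ≤ H' := by exact_mod_cast h
  obtain ⟨⟨⟨a1, a2⟩, a3, a4⟩, b1, b2, b3, b4, b5⟩ := hc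
  exact ⟨⟨⟨by linarith, by linarith⟩, by linarith, by linarith⟩, b1, by linarith, by linarith, b4, b5⟩

lemma cv_upper (i : ℕ) : (Cv 2 (64 ^ i)).card ≤ 4 ^ (i + 1) := by
  classical
  have hinj : Set.InjOn Fr (Cv 2 (64 ^ i) : Set (ℤ × ℤ)) := by
    intro x hx x' hx' h
    have h1 := Fr_rl (mem_coe.1 hx)
    have h2 := Fr_rl (mem_coe.1 hx')
    rw [← h] at h2
    exact rl_inj h1 h2
  have hle : ∀ t : ℕ, t ^ 6 ≤ 7 * 64 ^ i → t ≤ 2 ^ (i + 1) := by
    intro t ht
    by_contra hcon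
    rw [not_le] at hcon
    have h1 : (2 ^ (i + 1)) ^ 6 < t ^ 6 := Nat.pow_lt_pow_left hcon (by norm_num)
    have h2 : (2 ^ (i + 1)) ^ 6 = 64 * 64 ^ i := by
      rw [← pow_mul, mul_comm (i + 1) 6, pow_mul]
      norm_num
      ring
    have h3 : 0 < 64 ^ i := by positivity
    omega
  rw [← card_image_of_injOn hinj]
  have h1 : (Cv 2 (64 ^ i)).image Fr ⊆ Icc 1 (2 ^ (i + 1)) ×ˢ Icc 1 (2 ^ (i + 1)) := by
    intro t ht
    obtain ⟨x, hx, rfl⟩ := mem_image.1 ht
    have hr := Fr_rl hx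
    have hx' := hx
    unfold Cv at hx'
    simp only [mem_filter] at hx'
    have hs := rl_size hr (H := 64 ^ i) (by exact_mod_cast hx'.2.2.1)
    obtain ⟨e, a1, a2, -⟩ := hr
    rw [mem_product, mem_Icc, mem_Icc]
    exact ⟨⟨a1, hle _ hs.1⟩, ⟨a2, hle _ hs.2⟩⟩
  refine (card_le_card h1).trans ?_
  rw [card_product, Nat.card_Icc]
  have : 2 ^ (i + 1) * 2 ^ (i + 1) = 4 ^ (i + 1) := by rw [← mul_pow]; norm_num
  simp only [Nat.add_sub_cancel]
  omega

lemma cv_lower : ∃ (c : ℝ) (n0 : ℕ), 0 < c ∧ 1 ≤ n0 ∧ ∀ n, n0 ≤ n → ∀ H : ℕ, 64 ^ n ≤ H →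
    c * 4 ^ n ≤ ((Cv 2 H).card : ℝ) := by
  obtain ⟨c, C1, T0, hc, hlow⟩ := low2
  refine ⟨c / 4 ^ C1, C1 + T0 + 1, by positivity, by omega, fun n hn H hH => ?_⟩
  have h1 : T0 ≤ 2 ^ (n - C1) :=
    (Nat.lt_two_pow_self.le).trans (Nat.pow_le_pow_right (by norm_num) (by omega))
  have h2 : C1 * (2 ^ (n - C1)) ^ 6 ≤ H := by
    have a1 : C1 ≤ 64 ^ C1 := (Nat.lt_pow_self (by norm_num)).le
    calc C1 * (2 ^ (n - C1)) ^ 6 ≤ 64 ^ C1 * (2 ^ (n - C1)) ^ 6 := Nat.mul_le_mul_right _ a1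
      _ = 64 ^ C1 * 64 ^ (n - C1) := by rw [← pow_mul, mul_comm (n - C1) 6, pow_mul]; norm_num
      _ = 64 ^ n := by rw [← pow_add]; congr 1; omega
      _ ≤ H := hH
  have h3 := hlow _ H h1 h2
  refine le_trans (le_of_eq ?_) h3
  push_cast
  rw [← pow_mul, mul_comm (n - C1) 2, pow_mul]
  have h4 : (4 : ℝ) ^ n = 4 ^ C1 * 4 ^ (n - C1) := by rw [← pow_add]; congr 1; omega
  rw [h4]
  norm_num
  field_simp

lemma geom4 (n : ℕ) : ∑ i ∈ range n, (4 : ℝ) ^ (i + 1) ≤ 4 ^ (n + 1) := by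
  induction n with
  | zero => simp
  | succ n ih =>
    rw [sum_range_succ]
    have : (4 : ℝ) ^ (n + 1 + 1) = 4 * 4 ^ (n + 1) := by ring
    rw [this]
    have h2 : (0 : ℝ) < 4 ^ (n + 1) := by positivity
    linarith

theorem fin (h : S_FAM) : S_FIN := by
  classical
  obtain ⟨Ty, hTy, hT, hk⟩ := h
  obtain ⟨c, n0, hc, hn0, hlow⟩ := cv_lower
  -- the set
  let A : Set (ℤ × ℤ) := {x | ∃ i, x ∈ Ty (64 ^ i) ∧ ∀ j < i, x ∉ Cv 2 (64 ^ j)}
  have hlog : ∀ H : ℕ, H ≤ 64 ^ (Nat.log 64 H + 1) := fun H =>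
    (Nat.lt_pow_succ_log_self (by norm_num) H).le
  have hidx : ∀ (H : ℕ) (x : ℤ × ℤ), x ∈ Cv 2 H → ∃ i, i < Nat.log 64 H + 2 ∧
      x ∈ Cv 2 (64 ^ i) ∧ ∀ j < i, x ∉ Cv 2 (64 ^ j) := by
    intro H x hx
    have hex : ∃ i, x ∈ Cv 2 (64 ^ i) := ⟨_, cv_mono (hlog H) hx⟩
    refine ⟨Nat.find hex, ?_, Nat.find_spec hex, fun j hj => Nat.find_min hex hj⟩
    exact Nat.lt_succ_of_le (Nat.find_min' hex (cv_mono (hlog H) hx))
  -- outside the set
  have hout : ∀ (H : ℕ) (x : ℤ × ℤ), x ∈ Cv 2 H → x ∉ A → ∃ i ∈ range (Nat.log 64 H + 2),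
      x ∈ Cv 2 (64 ^ i) \ Ty (64 ^ i) := by
    intro H x hx hA
    obtain ⟨i, h1, h2, h3⟩ := hidx H x hx
    refine ⟨i, mem_range.2 h1, mem_sdiff.2 ⟨h2, fun h4 => hA ⟨i, h4, h3⟩⟩⟩
  -- inside the set
  have hin : ∀ (H : ℕ) (x : ℤ × ℤ), x ∈ Cv 2 H → x ∈ A → ∃ i ∈ range (Nat.log 64 H + 2),
      x ∈ Ty (64 ^ i) := by
    intro H x hx hA
    obtain ⟨i, h4, h5⟩ := hA
    obtain ⟨i', h1, h2, h3⟩ := hidx H x hx
    have h6 : i = i' := by
      rcases lt_trichotomy i i' with h | h | h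
      · exact absurd (hTy _ h4) (h3 i h)
      · exact h
      · exact absurd h2 (h5 i' h)
    exact ⟨i, mem_range.2 (h6 ▸ h1), h4⟩
  refine ⟨A, ?_, ?_⟩
  · -- density one
    set ε : ℕ → ℝ := fun i => ((Cv 2 (64 ^ i) \ Ty (64 ^ i)).card : ℝ) / (Cv 2 (64 ^ i)).card
      with hε
    have hε0 : Tendsto ε atTop (nhds 0) :=
      hT.comp (tendsto_pow_atTop_atTop_of_one_lt (by norm_num : 1 < 64))
    have hεp : ∀ i, 0 ≤ ε i := fun i => by positivity
    have hε1 : ∀ i, ε i ≤ 1 := by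
      intro i
      apply div_le_one_of_le₀ _ (Nat.cast_nonneg _)
      exact_mod_cast card_le_card sdiff_subset
    have hcard : ∀ i, ((Cv 2 (64 ^ i) \ Ty (64 ^ i)).card : ℝ) ≤ ε i * 4 ^ (i + 1) := by
      intro i
      have h1 : ((Cv 2 (64 ^ i) \ Ty (64 ^ i)).card : ℝ) = ε i * (Cv 2 (64 ^ i)).card := by
        rw [hε]
        simp only
        by_cases h0 : ((Cv 2 (64 ^ i)).card : ℝ) = 0
        · rw [h0, mul_zero]
          have h2 : (Cv 2 (64 ^ i)).card = 0 := by exact_mod_cast h0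
          have h3 : (Cv 2 (64 ^ i) \ Ty (64 ^ i)).card ≤ 0 := by
            rw [← h2]; exact card_le_card sdiff_subset
          have h4 : (Cv 2 (64 ^ i) \ Ty (64 ^ i)).card = 0 := by omega
          rw [h4]; simp
        · rw [div_mul_cancel₀ _ h0]
      rw [h1]
      apply mul_le_mul_of_nonneg_left _ (hεp i)
      exact_mod_cast cv_upper i
    have hnum : ∀ H : ℕ, (((Cv 2 H).filter (fun x => x ∉ A)).card : ℝ) ≤
        ∑ i ∈ range (Nat.log 64 H + 2), ε i * 4 ^ (i + 1) := by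
      intro H
      have h1 : (Cv 2 H).filter (fun x => x ∉ A) ⊆
          (range (Nat.log 64 H + 2)).biUnion (fun i => Cv 2 (64 ^ i) \ Ty (64 ^ i)) := by
        intro x hx
        obtain ⟨hx1, hx2⟩ := mem_filter.1 hx
        exact mem_biUnion.2 (hout H x hx1 hx2)
      calc (((Cv 2 H).filter (fun x => x ∉ A)).card : ℝ)
          ≤ (((range (Nat.log 64 H + 2)).biUnion
              (fun i => Cv 2 (64 ^ i) \ Ty (64 ^ i))).card : ℝ) := by
            exact_mod_cast card_le_card h1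
        _ ≤ ∑ i ∈ range (Nat.log 64 H + 2), ((Cv 2 (64 ^ i) \ Ty (64 ^ i)).card : ℝ) := by
            exact_mod_cast card_biUnion_le
        _ ≤ _ := sum_le_sum fun i _ => hcard i
    rw [Metric.tendsto_atTop]
    intro δ hδ
    -- choose N
    obtain ⟨N, hN⟩ := (Metric.tendsto_atTop.1 hε0) (c * δ / 256) (by positivity)
    have hsmall : ∀ i, N ≤ i → ε i ≤ c * δ / 256 := by
      intro i hi
      have := hN i hi
      rw [Real.dist_eq, sub_zero, abs_of_nonneg (hεp i)] at this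
      exact this.le
    obtain ⟨n1, hn1⟩ : ∃ n1 : ℕ, (4 : ℝ) ^ (N + 1) / (c * δ / 4) < 4 ^ n1 :=
      pow_unbounded_of_one_lt _ (by norm_num)
    refine ⟨64 ^ (max n0 n1), fun H hH => ?_⟩
    set n := Nat.log 64 H with hn
    have hH0 : H ≠ 0 := by
      have : 0 < 64 ^ (max n0 n1) := by positivity
      omega
    have hnn : max n0 n1 ≤ n := by
      rw [hn]
      exact Nat.le_log_of_pow_le (by norm_num) hH
    have hn64 : 64 ^ n ≤ H := Nat.pow_log_le_self 64 hH0
    have hden := hlow n ((le_max_left _ _).trans hnn) H hn64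
    have hden0 : 0 < c * 4 ^ n := by positivity
    have hK : (0 : ℝ) < (Cv 2 H).card := hden0.trans_le hden
    rw [Real.dist_eq, sub_zero, abs_of_nonneg (by positivity), div_lt_iff₀ hK]
    have hsum : ∑ i ∈ range (n + 2), ε i * 4 ^ (i + 1) ≤ 4 ^ (N + 1) + c * δ / 256 * 4 ^ (n + 3) := by
      calc ∑ i ∈ range (n + 2), ε i * (4 : ℝ) ^ (i + 1)
          ≤ ∑ i ∈ range (n + 2), ((if i < N then (4 : ℝ) ^ (i + 1) else 0) +
              c * δ / 256 * 4 ^ (i + 1)) := by
            apply sum_le_sum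
            intro i _
            have p1 : (0 : ℝ) < 4 ^ (i + 1) := by positivity
            split_ifs with hi
            · have := mul_le_mul_of_nonneg_right (hε1 i) p1.le
              have p2 : 0 ≤ c * δ / 256 * 4 ^ (i + 1) := by positivity
              linarith
            · have := mul_le_mul_of_nonneg_right (hsmall i (not_lt.1 hi)) p1.le
              linarith
        _ = ∑ i ∈ range (n + 2), (if i < N then (4 : ℝ) ^ (i + 1) else 0) +
              c * δ / 256 * ∑ i ∈ range (n + 2), (4 : ℝ) ^ (i + 1) := by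
            rw [sum_add_distrib, mul_sum]
        _ ≤ _ := by
            apply add_le_add
            · rw [← sum_filter]
              refine le_trans ?_ (geom4 N)
              apply sum_le_sum_of_subset_of_nonneg
              · intro i hi
                exact mem_range.2 (mem_filter.1 hi).2
              · intro i _ _; positivity
            · exact mul_le_mul_of_nonneg_left (geom4 (n + 2)) (by positivity)
    have h5 : (4 : ℝ) ^ (N + 1) < c * δ / 4 * 4 ^ n := by
      have h6 : (4 : ℝ) ^ (N + 1) / (c * δ / 4) < 4 ^ n :=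
        hn1.trans_le (pow_le_pow_right₀ (by norm_num) ((le_max_right _ _).trans hnn))
      rw [div_lt_iff₀ (by positivity)] at h6
      linarith
    have h7 : c * δ / 256 * (4 : ℝ) ^ (n + 3) = c * δ / 4 * 4 ^ n := by
      rw [pow_add]; ring
    calc (((Cv 2 H).filter (fun x => x ∉ A)).card : ℝ)
        ≤ ∑ i ∈ range (n + 2), ε i * 4 ^ (i + 1) := hnum H
      _ ≤ 4 ^ (N + 1) + c * δ / 256 * 4 ^ (n + 3) := hsum
      _ < c * δ / 4 * 4 ^ n + c * δ / 4 * 4 ^ n := by rw [h7]; linarith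
      _ ≤ δ * (c * 4 ^ n) := by
          have : 0 < c * δ * 4 ^ n := by positivity
          nlinarith
      _ ≤ δ * (Cv 2 H).card := mul_le_mul_of_nonneg_left hden hδ.le
  · -- moments
    intro k
    obtain ⟨C, hC0, hC⟩ := hk k
    have hbound : ∀ H : ℕ, ∑ x ∈ (Cv 2 H).filter (fun x => x ∈ A),
        (k : ℝ) ^ Module.finrank ℤ (Sh x.1 x.2).toAffine.Point ≤
          C * 4 ^ (Nat.log 64 H + 3) := by
      intro H
      set f : ℤ × ℤ → ℝ := fun x => ((2 : ℝ) ^ Module.finrank ℤ (Sh x.1 x.2).toAffine.Point) ^ k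
        with hf
      have hfp : ∀ x, 0 ≤ f x := fun x => by rw [hf]; positivity
      have h1 : ∀ x : ℤ × ℤ, (k : ℝ) ^ Module.finrank ℤ (Sh x.1 x.2).toAffine.Point ≤ f x := by
        intro x
        rw [hf]
        simp only
        rw [← pow_mul, mul_comm, pow_mul]
        apply pow_le_pow_left₀ (Nat.cast_nonneg _)
        exact_mod_cast Nat.lt_two_pow_self.le
      calc ∑ x ∈ (Cv 2 H).filter (fun x => x ∈ A),
            (k : ℝ) ^ Module.finrank ℤ (Sh x.1 x.2).toAffine.Point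
          ≤ ∑ x ∈ (Cv 2 H).filter (fun x => x ∈ A), ∑ i ∈ range (Nat.log 64 H + 2),
              (if x ∈ Ty (64 ^ i) then f x else 0) := by
            apply sum_le_sum
            intro x hx
            obtain ⟨hx1, hx2⟩ := mem_filter.1 hx
            obtain ⟨i, hi, hxi⟩ := hin H x hx1 hx2
            refine (h1 x).trans ?_
            have := single_le_sum (f := fun i => if x ∈ Ty (64 ^ i) then f x else 0)
              (fun j _ => by split_ifs <;> [exact hfp x; exact le_rfl]) hi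
            simp only [if_pos hxi] at this
            exact this
        _ = ∑ i ∈ range (Nat.log 64 H + 2), ∑ x ∈ (Cv 2 H).filter (fun x => x ∈ A),
              (if x ∈ Ty (64 ^ i) then f x else 0) := sum_comm
        _ ≤ ∑ i ∈ range (Nat.log 64 H + 2), C * 4 ^ (i + 1) := by
            apply sum_le_sum
            intro i _
            rw [← sum_filter]
            calc ∑ x ∈ ((Cv 2 H).filter (fun x => x ∈ A)).filter (fun x => x ∈ Ty (64 ^ i)), f x
                ≤ ∑ x ∈ Ty (64 ^ i), f x := by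
                  apply sum_le_sum_of_subset_of_nonneg
                  · intro x hx
                    exact (mem_filter.1 hx).2
                  · intro x _ _; exact hfp x
              _ ≤ C * (Cv 2 (64 ^ i)).card := hC _
              _ ≤ C * 4 ^ (i + 1) := by
                  apply mul_le_mul_of_nonneg_left _ hC0
                  exact_mod_cast cv_upper i
        _ = C * ∑ i ∈ range (Nat.log 64 H + 2), (4 : ℝ) ^ (i + 1) := by rw [mul_sum]
        _ ≤ _ := mul_le_mul_of_nonneg_left (geom4 _) hC0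
    refine ⟨C * 64 / c + C * 4 ^ (n0 + 3), fun H => ?_⟩
    by_cases hK : (Cv 2 H).card = 0
    · rw [card_eq_zero.1 hK]
      simp
    have hK1 : (1 : ℝ) ≤ (Cv 2 H).card := by exact_mod_cast Nat.one_le_iff_ne_zero.2 hK
    have p1 : 0 ≤ C * 64 / c := by positivity
    have p2 : 0 ≤ C * 4 ^ (n0 + 3) := by positivity
    rcases Nat.lt_or_ge (Nat.log 64 H) n0 with hlt | hge
    · calc _ ≤ C * 4 ^ (Nat.log 64 H + 3) := hbound H
        _ ≤ C * 4 ^ (n0 + 3) := by
            apply mul_le_mul_of_nonneg_left _ hC0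
            exact pow_le_pow_right₀ (by norm_num) (by omega)
        _ ≤ C * 4 ^ (n0 + 3) * (Cv 2 H).card := le_mul_of_one_le_right p2 hK1
        _ ≤ _ := by
            apply mul_le_mul_of_nonneg_right _ (by linarith)
            linarith
    · have hH0 : H ≠ 0 := by
        intro h0
        rw [h0] at hge
        simp at hge
        omega
      have hden := hlow _ hge H (Nat.pow_log_le_self 64 hH0)
      calc _ ≤ C * 4 ^ (Nat.log 64 H + 3) := hbound H
        _ = C * 64 / c * (c * 4 ^ (Nat.log 64 H)) := by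
            rw [pow_add]; field_simp; norm_num
        _ ≤ C * 64 / c * (Cv 2 H).card := mul_le_mul_of_nonneg_left hden p1
        _ ≤ _ := by
            apply mul_le_mul_of_nonneg_right _ (by linarith)
            linarith

end Pool.Agent.LLead.TT
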