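import Pool.Agent.L0h5.TT.Stm
import Pool.Agent.LLead.Coef

set_option autoImplicit false

namespace Pool.Agent.LLead.TT

theorem coef : Pool.Agent.L0h5.TT.S_COEF :=
  fun S x φ N h1 h2 => Pool.Agent.LLead.Coef.coef S x φ N h1 h2

end Pool.Agent.LLead.TT
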