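import Pool.Agent.L0h5.TT.Stm

set_option autoImplicit false

namespace Pool.Agent.LLead.TT

open Finset Pool.Agent.W262.RK Pool.Agent.L0h5.TF Pool.Agent.L0h5.AG Pool.Agent.L0h94.FT
open Pool.Agent.L0h5.TT

/-- the sign -/
noncomputable def sn (b x e : Bool) : ℝ := if (b && x && e) = true then (-1) else 1

lemma prod_sn_false {k : ℕ} (b x : Fin k → Bool) : ∏ i, sn (b i) (x i) false = 1 := by
  apply Finset.prod_eq_one
  intro i _
  simp [sn]

lemma prod_sn_true {k : ℕ} (b x : Fin k → Bool) : ∏ i, sn (b i) (x i) true =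
    (-1) ^ (univ.filter (fun j => (b j && x j) = true)).card := by
  have h1 : ∀ i, sn (b i) (x i) true = if (b i && x i) = true then (-1) else 1 := by
    intro i
    simp [sn]
  simp_rw [h1]
  rw [Finset.prod_ite]
  simp

lemma sum_sn {k : ℕ} (b x : Fin k → Bool) : ∑ e : Bool, (1 / 2 : ℝ) * ∏ i, sn (b i) (x i) e =
    if Even (univ.filter (fun j => (b j && x j) = true)).card then 1 else 0 := by
  rw [Fintype.sum_bool, prod_sn_false, prod_sn_true]
  split_ifs with h
  · rw [h.neg_one_pow]; norm_num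
  · rw [(Nat.not_even_iff_odd.1 h).neg_one_pow]; norm_num

lemma prod_Pe {k : ℕ} (c : Fin 3) (b : Fin k → Bool) (v : Vk k) :
    ∏ i, Pe c (b i) (v i) = if vvk c b = v then 1 else 0 := by
  unfold Pe
  split_ifs with h
  · apply Finset.prod_eq_one
    intro i _
    have h1 : ev c (b i) = v i := congrFun h i
    rw [if_pos h1]
  · obtain ⟨i, hi⟩ := Function.ne_iff.1 h
    apply Finset.prod_eq_zero (Finset.mem_univ i)
    have h1 : ¬ ev c (b i) = v i := hi
    rw [if_neg h1]

lemma prod_exp {k : ℕ} (F : Fin k → Bool → Bool → ℝ) :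
    ∏ i, ∑ b : Bool, ∑ x : Bool, F i b x =
      ∑ b : Fin k → Bool, ∑ x : Fin k → Bool, ∏ i, F i (b i) (x i) := by
  have h1 : ∀ i, ∑ b : Bool, ∑ x : Bool, F i b x = ∑ r : Bool × Bool, F i r.1 r.2 := by
    intro i
    rw [Fintype.sum_prod_type]
  simp_rw [h1]
  rw [Finset.prod_univ_sum, Fintype.piFinset_univ, ← Fintype.sum_prod_type']
  exact Fintype.sum_equiv (Equiv.arrowProdEquivProdArrow (Fin k) (fun _ => Bool) (fun _ => Bool)) _ _
    (fun r => rfl)

theorem lam : S_LAM := by
  intro k c v h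
  have h1 : lamc k c v h = ∑ b : Fin k → Bool, ∑ x : Fin k → Bool,
      (if Even (univ.filter (fun j => (b j && x j) = true)).card then 1 else 0) *
        ((if vvk c b = v then 1 else 0) * ((1 / 2 : ℝ) ^ k * chi (xxk c x) h)) := by
    unfold lamc
    have h2 : ∀ e : Bool, (1 / 2 : ℝ) * ∏ i, iL (Lce c e) (v i) (h i) =
        ∑ b : Fin k → Bool, ∑ x : Fin k → Bool, ((1 / 2 : ℝ) * ∏ i, sn (b i) (x i) e) *
        ((if vvk c b = v then 1 else 0) * ((1 / 2 : ℝ) ^ k * chi (xxk c x) h)) := by
      intro e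
      simp_rw [iL_eq]
      rw [prod_exp (fun i b x => Pe c b (v i) *
      ((1 / 2) * (if (b && x && e) = true then (-1) else 1) * ch1 (ex c x) (h i))), Finset.mul_sum]
      refine sum_congr rfl fun b _ => ?_
      rw [Finset.mul_sum]
      refine sum_congr rfl fun x _ => ?_
      rw [Finset.prod_mul_distrib, Finset.prod_mul_distrib, Finset.prod_mul_distrib, prod_Pe,
        chi_prod]
      have h3 : ∏ _i : Fin k, (1 / 2 : ℝ) = (1 / 2) ^ k := by simp
      rw [h3]
      unfold sn xxk
      ring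
    simp_rw [h2]
    rw [Finset.sum_comm]
    refine sum_congr rfl fun b _ => ?_
    rw [Finset.sum_comm]
    refine sum_congr rfl fun x _ => ?_
    rw [← Finset.sum_mul, sum_sn]
  rw [h1]
  have h4 : ∑ i : Ik k, (if ty i = c ∧ (lbk i).1.1 = v then (1 / 2 : ℝ) ^ k * chi (lbk i).1.2 h
      else 0) = ∑ r : Fin 3 × (Fin k → Bool) × (Fin k → Bool),
        if Even (univ.filter (fun j => (r.2.1 j && r.2.2 j) = true)).card then
        (if r.1 = c ∧ vvk r.1 r.2.1 = v then (1 / 2 : ℝ) ^ k * chi (xxk r.1 r.2.2) h else 0)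
        else 0 := by
    have h5 := (Finset.sum_subtype (F := (inferInstance : Fintype (Ik k))) (p := fun r : Fin 3 × (Fin k → Bool) × (Fin k → Bool) =>
      Even (univ.filter (fun j => (r.2.1 j && r.2.2 j) = true)).card)
      (univ.filter fun r : Fin 3 × (Fin k → Bool) × (Fin k → Bool) =>
      Even (univ.filter (fun j => (r.2.1 j && r.2.2 j) = true)).card)
      (fun x => by rw [Finset.mem_filter]; exact and_iff_right (Finset.mem_univ _))
      (fun r => if r.1 = c ∧ vvk r.1 r.2.1 = v then (1 / 2 : ℝ) ^ k * chi (xxk r.1 r.2.2) h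
        else 0)).symm
    rw [Finset.sum_filter] at h5
    exact h5
  rw [h4, Fintype.sum_prod_type, Finset.sum_eq_single c]
  · rw [Fintype.sum_prod_type]
    refine sum_congr rfl fun b _ => sum_congr rfl fun x _ => ?_
    by_cases h5 : Even (univ.filter (fun j => (b j && x j) = true)).card <;>
      by_cases h6 : vvk c b = v <;> simp [h6]
  · intro c' _ hc
    apply Finset.sum_eq_zero
    intro r _
    simp [hc]
  · simp

end Pool.Agent.LLead.TT
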